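import Mathlib

/-!
# Maximal independent sets: definitions and elementary lemmas

`mis G S` is the set of the maximal independent subsets of the finite set `S` of vertices of `G`,
`Z G S w` is the sum of `4 ^ (-w (S \ I))` over these sets `I`, and `E G S w` is the sum of
`w u * w v` over the edges of `G` in `S`.
-/

set_option autoImplicit false

noncomputable section

open Finset
open scoped Classical

namespace Pool.Agent.MISineq

variable {V : Type*} (G : SimpleGraph V)

/-- the maximal independent subsets of `S` -/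
def mis (S : Finset V) : Finset (Finset V) :=
  S.powerset.filter fun I => (∀ u ∈ I, ∀ v ∈ I, ¬ G.Adj u v) ∧
    ∀ u ∈ S, u ∉ I → ∃ v ∈ I, G.Adj u v

theorem mem_mis {S I : Finset V} : I ∈ mis G S ↔ I ⊆ S ∧ (∀ u ∈ I, ∀ v ∈ I, ¬ G.Adj u v) ∧
    ∀ u ∈ S, u ∉ I → ∃ v ∈ I, G.Adj u v := by
  simp [mis]

/-- the neighbours of `u` in `S` -/
def nb (S : Finset V) (u : V) : Finset V := S.filter fun v => G.Adj u v

theorem mem_nb {S : Finset V} {u v : V} : v ∈ nb G S u ↔ v ∈ S ∧ G.Adj u v := by
  simp [nb]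

/-- the weight of a set -/
def wt (w : V → ℝ) (A : Finset V) : ℝ := ∑ v ∈ A, w v

/-- the weight of the edge `u v`, zero if it is not an edge -/
def ew (w : V → ℝ) (u v : V) : ℝ := if G.Adj u v then w u * w v else 0

theorem ew_comm (w : V → ℝ) (u v : V) : ew G w u v = ew G w v u := by
  unfold ew
  by_cases h : G.Adj u v
  · rw [if_pos h, if_pos h.symm, mul_comm]
  · rw [if_neg h, if_neg fun h' => h h'.symm]

/-- the sum of the weights of the edges in `S` -/
def E (S : Finset V) (w : V → ℝ) : ℝ := 1 / 2 * ∑ u ∈ S, ∑ v ∈ S, ew G w u v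

/-- the logarithm of 2 -/
def ell : ℝ := Real.log 2

theorem ell_pos : 0 < ell := Real.log_pos one_lt_two

/-- `4 ^ (-w (S \ I))` -/
def z (S : Finset V) (w : V → ℝ) (I : Finset V) : ℝ := Real.exp (-(2 * ell) * wt w (S \ I))

/-- the partition function -/
def Z (S : Finset V) (w : V → ℝ) : ℝ := ∑ I ∈ mis G S, z S w I

theorem z_pos (S : Finset V) (w : V → ℝ) (I : Finset V) : 0 < z S w I := Real.exp_pos _

theorem wt_nonneg {w : V → ℝ} (hw : ∀ v, 0 ≤ w v) (A : Finset V) : 0 ≤ wt w A :=
  Finset.sum_nonneg fun v _ => hw v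

/-- the row sum of the edge weights -/
theorem sum_ew (S : Finset V) (w : V → ℝ) (u : V) :
    ∑ v ∈ S, ew G w u v = w u * wt w (nb G S u) := by
  unfold ew wt nb
  rw [Finset.mul_sum, Finset.sum_filter]

theorem E_sdiff {S A : Finset V} (hA : A ⊆ S) (w : V → ℝ) :
    E G S w = E G (S \ A) w + ∑ v ∈ A, w v * wt w (nb G S v) - E G A w := by
  have h1 : ∀ v, w v * wt w (nb G S v) = ∑ x ∈ S \ A, ew G w v x + ∑ x ∈ A, ew G w v x := by
    intro v
    rw [← sum_ew, Finset.sum_sdiff hA]
  have h2 : ∑ u ∈ S, ∑ v ∈ S, ew G w u v =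
      ∑ u ∈ S \ A, (∑ x ∈ S \ A, ew G w u x + ∑ x ∈ A, ew G w u x) +
        ∑ u ∈ A, (∑ x ∈ S \ A, ew G w u x + ∑ x ∈ A, ew G w u x) := by
    rw [← Finset.sum_sdiff hA]
    congr 1
    · exact Finset.sum_congr rfl fun u _ => by rw [Finset.sum_sdiff hA]
    · exact Finset.sum_congr rfl fun u _ => by rw [Finset.sum_sdiff hA]
  have h3 : ∑ u ∈ S \ A, ∑ x ∈ A, ew G w u x = ∑ u ∈ A, ∑ x ∈ S \ A, ew G w u x := by
    rw [Finset.sum_comm]
    exact Finset.sum_congr rfl fun u _ => Finset.sum_congr rfl fun x _ => ew_comm G w x u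
  have h4 : ∑ v ∈ A, w v * wt w (nb G S v) =
      ∑ u ∈ A, ∑ x ∈ S \ A, ew G w u x + ∑ u ∈ A, ∑ x ∈ A, ew G w u x := by
    rw [← Finset.sum_add_distrib]
    exact Finset.sum_congr rfl fun v _ => h1 v
  unfold E
  rw [h2, h4, Finset.sum_add_distrib, Finset.sum_add_distrib, h3]
  ring

theorem E_singleton (v : V) (w : V → ℝ) : E G {v} w = 0 := by
  unfold E ew
  simp

theorem E_erase {S : Finset V} {v : V} (hv : v ∈ S) (w : V → ℝ) :
    E G S w = E G (S.erase v) w + w v * wt w (nb G S v) := by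
  have h := E_sdiff G (Finset.singleton_subset_iff.2 hv) w
  rw [Finset.sdiff_singleton_eq_erase, Finset.sum_singleton, E_singleton, sub_zero] at h
  exact h

theorem E_congr {S : Finset V} {w w' : V → ℝ} (h : ∀ v ∈ S, w v = w' v) : E G S w = E G S w' := by
  unfold E ew
  congr 1
  exact Finset.sum_congr rfl fun u hu => Finset.sum_congr rfl fun v hv => by rw [h u hu, h v hv]

theorem wt_congr {A : Finset V} {w w' : V → ℝ} (h : ∀ v ∈ A, w v = w' v) : wt w A = wt w' A :=
  Finset.sum_congr rfl h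

theorem Z_congr {S : Finset V} {w w' : V → ℝ} (h : ∀ v ∈ S, w v = w' v) : Z G S w = Z G S w' := by
  unfold Z z
  refine Finset.sum_congr rfl fun I _ => ?_
  rw [wt_congr fun v hv => h v (Finset.mem_sdiff.1 hv).1]

/-- Removing a vertex of weight zero or an isolated vertex does not increase `Z`. -/
theorem Z_erase_le {S : Finset V} {v : V} (hv : v ∈ S) {w : V → ℝ}
    (h : w v = 0 ∨ nb G S v = ∅) : Z G (S.erase v) w ≤ Z G S w := by
  let g : Finset V → Finset V := fun J => if ∃ x ∈ J, G.Adj v x then J else insert v J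
  have hvJ : ∀ J ∈ mis G (S.erase v), v ∉ J := fun J hJ h1 =>
    Finset.notMem_erase v S (((mem_mis G).1 hJ).1 h1)
  have hg : ∀ J ∈ mis G (S.erase v), g J ∈ mis G S := by
    intro J hJ
    have hJv := hvJ J hJ
    obtain ⟨h1, h2, h3⟩ := (mem_mis G).1 hJ
    by_cases hx : ∃ x ∈ J, G.Adj v x
    · have : g J = J := if_pos hx
      rw [this, mem_mis]
      refine ⟨h1.trans (Finset.erase_subset _ _), h2, fun u hu huJ => ?_⟩
      by_cases huv : u = v
      · rw [huv]
        exact hx
      · exact h3 u (Finset.mem_erase.2 ⟨huv, hu⟩) huJ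
    · have : g J = insert v J := if_neg hx
      rw [this, mem_mis]
      refine ⟨Finset.insert_subset hv (h1.trans (Finset.erase_subset _ _)), ?_, ?_⟩
      · intro a ha b hb
        rcases Finset.mem_insert.1 ha with ha' | ha'
        · rcases Finset.mem_insert.1 hb with hb' | hb'
          · rw [ha', hb']
            exact G.irrefl
          · rw [ha']
            exact fun h4 => hx ⟨b, hb', h4⟩
        · rcases Finset.mem_insert.1 hb with hb' | hb'
          · rw [hb']
            exact fun h4 => hx ⟨a, ha', h4.symm⟩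
          · exact h2 a ha' b hb'
      · intro u hu huJ
        rw [Finset.mem_insert, not_or] at huJ
        obtain ⟨x, hx1, hx2⟩ := h3 u (Finset.mem_erase.2 ⟨huJ.1, hu⟩) huJ.2
        exact ⟨x, Finset.mem_insert_of_mem hx1, hx2⟩
  have hinj : Set.InjOn g (mis G (S.erase v) : Set (Finset V)) := by
    intro J hJ J' hJ' he
    have hJv := hvJ J hJ
    have hJv' := hvJ J' hJ'
    have e1 : (g J).erase v = J := by
      by_cases hx : ∃ x ∈ J, G.Adj v x
      · have : g J = J := if_pos hx
        rw [this, Finset.erase_eq_of_notMem hJv]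
      · have : g J = insert v J := if_neg hx
        rw [this, Finset.erase_insert hJv]
    have e2 : (g J').erase v = J' := by
      by_cases hx : ∃ x ∈ J', G.Adj v x
      · have : g J' = J' := if_pos hx
        rw [this, Finset.erase_eq_of_notMem hJv']
      · have : g J' = insert v J' := if_neg hx
        rw [this, Finset.erase_insert hJv']
    rw [← e1, ← e2, he]
  have hz : ∀ J ∈ mis G (S.erase v), z (S.erase v) w J = z S w (g J) := by
    intro J hJ
    have hJv := hvJ J hJ
    unfold z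
    congr 2
    by_cases hx : ∃ x ∈ J, G.Adj v x
    · have e : g J = J := if_pos hx
      have hw : w v = 0 := by
        rcases h with h | h
        · exact h
        · obtain ⟨x, hx1, hx2⟩ := hx
          have hx3 : x ∈ nb G S v := (mem_nb G).2
            ⟨Finset.mem_of_mem_erase (((mem_mis G).1 hJ).1 hx1), hx2⟩
          rw [h] at hx3
          exact absurd hx3 (Finset.notMem_empty x)
      rw [e]
      have e3 : S \ J = insert v (S.erase v \ J) := by
        ext a
        simp only [Finset.mem_sdiff, Finset.mem_insert, Finset.mem_erase]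
        by_cases hav : a = v
        · subst hav
          simp [hv, hJv]
        · simp [hav]
      unfold wt
      rw [e3, Finset.sum_insert (by simp), hw, zero_add]
    · have e : g J = insert v J := if_neg hx
      rw [e]
      congr 1
      ext a
      simp only [Finset.mem_sdiff, Finset.mem_insert, Finset.mem_erase]
      tauto
  unfold Z
  rw [Finset.sum_congr rfl hz, ← Finset.sum_image (f := fun I => z S w I) hinj]
  refine Finset.sum_le_sum_of_subset_of_nonneg ?_ fun I _ _ => (z_pos S w I).le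
  intro I hI
  obtain ⟨J, hJ, rfl⟩ := Finset.mem_image.1 hI
  exact hg J hJ

/-- the maximal independent sets which contain `u` -/
theorem mis_filter_mem {S : Finset V} {u : V} (hu : u ∈ S) :
    (mis G S).filter (fun I => u ∈ I) = mis G (S \ nb G S u) := by
  ext I
  rw [Finset.mem_filter, mem_mis, mem_mis]
  constructor
  · rintro ⟨⟨h1, h2, h3⟩, h4⟩
    refine ⟨fun v hv => ?_, h2, fun v hv => h3 v (Finset.mem_sdiff.1 hv).1⟩
    rw [Finset.mem_sdiff]
    exact ⟨h1 hv, fun h5 => h2 u h4 v hv ((mem_nb G).1 h5).2⟩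
  · rintro ⟨h1, h2, h3⟩
    have huI : u ∈ I := by
      by_contra hcon
      have hu' : u ∈ S \ nb G S u := Finset.mem_sdiff.2
        ⟨hu, fun h5 => G.irrefl ((mem_nb G).1 h5).2⟩
      obtain ⟨v, hv1, hv2⟩ := h3 u hu' hcon
      have h4 := Finset.mem_sdiff.1 (h1 hv1)
      exact h4.2 ((mem_nb G).2 ⟨h4.1, hv2⟩)
    refine ⟨⟨fun v hv => (Finset.mem_sdiff.1 (h1 hv)).1, h2, fun v hv hvI => ?_⟩, huI⟩
    by_cases hvn : v ∈ nb G S u
    · exact ⟨u, huI, ((mem_nb G).1 hvn).2.symm⟩
    · exact h3 v (Finset.mem_sdiff.2 ⟨hv, hvn⟩) hvI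

/-- the part of `Z` with `u ∈ I` -/
theorem sum_mem {S : Finset V} {u : V} (hu : u ∈ S) (w : V → ℝ) :
    ∑ I ∈ (mis G S).filter (fun I => u ∈ I), z S w I =
      Real.exp (-(2 * ell) * wt w (nb G S u)) * Z G (S \ nb G S u) w := by
  rw [mis_filter_mem G hu]
  unfold Z
  rw [Finset.mul_sum]
  refine Finset.sum_congr rfl fun I hI => ?_
  unfold z
  rw [← Real.exp_add, ← mul_add]
  congr 2
  have h1 : S \ I = nb G S u ∪ ((S \ nb G S u) \ I) := by
    ext a
    simp only [Finset.mem_sdiff, Finset.mem_union]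
    constructor
    · rintro ⟨h2, h3⟩
      by_cases h4 : a ∈ nb G S u
      · exact Or.inl h4
      · exact Or.inr ⟨⟨h2, h4⟩, h3⟩
    · rintro (h2 | ⟨⟨h2, -⟩, h3⟩)
      · refine ⟨((mem_nb G).1 h2).1, fun h3 => ?_⟩
        exact (Finset.mem_sdiff.1 (((mem_mis G).1 hI).1 h3)).2 h2
      · exact ⟨h2, h3⟩
  unfold wt
  rw [h1, Finset.sum_union]
  rw [Finset.disjoint_left]
  intro a ha h2
  exact (Finset.mem_sdiff.1 (Finset.mem_sdiff.1 h2).1).2 ha

theorem Z_empty (w : V → ℝ) : Z G ∅ w = 1 := by
  unfold Z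
  have : mis G ∅ = {∅} := by
    ext I
    rw [mem_mis, Finset.mem_singleton, Finset.subset_empty]
    constructor
    · exact fun h => h.1
    · rintro rfl
      simp
  rw [this, Finset.sum_singleton]
  simp [z, wt]

theorem E_empty (w : V → ℝ) : E G ∅ w = 0 := by
  simp [E]

end Pool.Agent.MISineq
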