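import Pool.Agent.MISineq.Num

/-!
# The inequality for the number of maximal independent sets

`main`: the sum of `4 ^ (-w (S \ I))` over the maximal independent subsets `I` of `S` is at least
`2 ^ (-E)`, where `E` is the sum of `w u * w v` over the edges of `G` in `S`.
-/

set_option autoImplicit false

noncomputable section

open Finset
open scoped Classical

namespace Pool.Agent.MISineq

variable {V : Type*} (G : SimpleGraph V)

theorem Z_pos_of {S : Finset V} {w : V → ℝ} (h : Real.exp (-(ell * E G S w)) ≤ Z G S w) :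
    0 < Z G S w := lt_of_lt_of_le (Real.exp_pos _) h

/-- The step in the interior of the cube. -/
theorem step {S : Finset V} {w : V → ℝ} (hw : ∀ v, 0 ≤ w v)
    (IH : ∀ u ∈ S, Real.exp (-(ell * E G (S \ nb G S u) w)) ≤ Z G (S \ nb G S u) w)
    (hst : ∀ v ∈ S, wt w (nb G S v) * Z G S w =
      2 * (Z G S w - ∑ I ∈ (mis G S).filter (fun I => v ∈ I), z S w I))
    (hpos : ∀ v ∈ S, 0 < wt w (nb G S v)) (hS : S.Nonempty) :
    Real.exp (-(ell * E G S w)) ≤ Z G S w := by
  let a : V → ℝ := fun v => ∑ I ∈ (mis G S).filter (fun I => v ∈ I), z S w I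
  have ha0 : ∀ v ∈ S, 0 < a v := by
    intro v hv
    change 0 < ∑ I ∈ (mis G S).filter (fun I => v ∈ I), z S w I
    rw [sum_mem G hv]
    exact mul_pos (Real.exp_pos _) (Z_pos_of G (IH v hv))
  have haZ : ∀ v, a v ≤ Z G S w := fun v =>
    Finset.sum_le_sum_of_subset_of_nonneg (Finset.filter_subset _ _) fun I _ _ => (z_pos S w I).le
  have hZ : 0 < Z G S w := by
    obtain ⟨v, hv⟩ := hS
    exact lt_of_lt_of_le (ha0 v hv) (haZ v)
  -- the choice of `u`
  obtain ⟨u, hu, hcase⟩ : ∃ u ∈ S, Z G S w / 2 ≤ a u ∨ ∀ v ∈ S, a v < Z G S w / 2 := by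
    by_cases h : ∃ u ∈ S, Z G S w / 2 ≤ a u
    · obtain ⟨u, hu, h1⟩ := h
      exact ⟨u, hu, Or.inl h1⟩
    · push Not at h
      obtain ⟨v, hv⟩ := hS
      exact ⟨v, hv, Or.inr h⟩
  obtain ⟨N, hN⟩ : ∃ N, N = nb G S u := ⟨_, rfl⟩
  obtain ⟨W, hW⟩ : ∃ W, W = wt w N := ⟨_, rfl⟩
  obtain ⟨R, hR⟩ : ∃ R, R = Z G S w - a u := ⟨_, rfl⟩
  have hWR : W * Z G S w = 2 * R := by
    rw [hW, hN, hR]
    exact hst u hu
  have hWpos : 0 < W := by
    rw [hW, hN]
    exact hpos u hu
  have hRpos : 0 < R := by
    have := mul_pos hWpos hZ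
    linarith
  obtain ⟨r, hr⟩ : ∃ r, r = R / Z G S w := ⟨_, rfl⟩
  have hW2 : W = 2 * r := by
    rw [hr, mul_div_assoc', ← hWR, mul_div_cancel_right₀ _ hZ.ne']
  have hr0 : 0 < r := by linarith
  have hr1 : r < 1 := by
    rw [hr, div_lt_one hZ, hR]
    linarith [ha0 u hu]
  -- the random set
  let T : Finset (Finset V) := (mis G S).filter fun I => u ∉ I
  let μ : Finset V → ℝ := fun I => z S w I / R
  let J : Finset V → Finset V := fun I => I ∩ N
  have hTsum : ∑ I ∈ T, z S w I = R := by
    rw [hR]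
    change _ = Z G S w - ∑ I ∈ (mis G S).filter (fun I => u ∈ I), z S w I
    unfold Z
    rw [← Finset.sum_filter_add_sum_filter_not (mis G S) (fun I => u ∈ I)]
    ring
  have hμ1 : ∑ I ∈ T, μ I = 1 := by
    change ∑ I ∈ T, z S w I / R = 1
    rw [← Finset.sum_div, hTsum, div_self hRpos.ne']
  have hfv : ∀ v ∈ N, ∑ I ∈ T, (if v ∈ J I then μ I else 0) = a v / R := by
    intro v hv
    have hvu := hv
    rw [hN, mem_nb] at hvu
    have h1 : ∀ I ∈ T, (if v ∈ J I then μ I else 0) = (if v ∈ I then z S w I else 0) / R := by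
      intro I _
      by_cases h : v ∈ I
      · rw [if_pos (Finset.mem_inter.2 ⟨h, hv⟩), if_pos h]
      · have h2 : v ∉ J I := fun h3 => h (Finset.mem_inter.1 h3).1
        rw [if_neg h2, if_neg h, zero_div]
    rw [Finset.sum_congr rfl h1, ← Finset.sum_div, ← Finset.sum_filter]
    congr 2
    ext I
    simp only [T, Finset.mem_filter]
    constructor
    · rintro ⟨⟨h3, -⟩, h4⟩
      exact ⟨h3, h4⟩
    · rintro ⟨h3, h4⟩
      exact ⟨⟨h3, fun h5 => ((mem_mis G).1 h3).2.1 u h5 v h4 hvu.2⟩, h4⟩
  obtain ⟨m, hm⟩ : ∃ m, m = ∑ I ∈ T, μ I * wt w (J I) := ⟨_, rfl⟩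
  have hmP : m = (∑ v ∈ N, w v * a v) / R := by
    have h1 : ∀ I ∈ T, μ I * wt w (J I) = ∑ v ∈ N, w v * (if v ∈ J I then μ I else 0) := by
      intro I _
      have h2 : wt w (J I) = ∑ v ∈ N, if v ∈ J I then w v else 0 := by
        unfold wt
        rw [← Finset.sum_filter]
        congr 1
        ext v
        rw [Finset.mem_filter]
        exact ⟨fun h => ⟨(Finset.mem_inter.1 h).2, h⟩, fun h => h.2⟩
      rw [h2, Finset.mul_sum]
      refine Finset.sum_congr rfl fun v _ => ?_
      by_cases h : v ∈ J I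
      · rw [if_pos h, if_pos h, mul_comm]
      · rw [if_neg h, if_neg h, mul_zero, mul_zero]
    rw [hm, Finset.sum_congr rfl h1, Finset.sum_comm, Finset.sum_div]
    refine Finset.sum_congr rfl fun v hv => ?_
    rw [← Finset.mul_sum, hfv v hv]
    ring
  have hJ : ∀ I ∈ T, J I ⊆ N := fun I _ => Finset.inter_subset_right
  have hind : ∀ I ∈ T, ∀ x ∈ J I, ∀ y ∈ J I, ¬ G.Adj x y := by
    intro I hI x hx y hy
    exact ((mem_mis G).1 (Finset.mem_filter.1 hI).1).2.1 x (Finset.mem_inter.1 hx).1 y
      (Finset.mem_inter.1 hy).1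
  have hμ0 : ∀ I ∈ T, 0 ≤ μ I := fun I _ => div_nonneg (z_pos S w I).le hRpos.le
  obtain ⟨t, ht⟩ : ∃ t, t = E G N w := ⟨_, rfl⟩
  -- the key inequality
  have key : ell * (2 * (r * m) + t) ≤ -Real.log (1 - r) := by
    rcases hcase with h | h
    · have hr2 : r ≤ 1 / 2 := by
        rw [hr, div_le_iff₀ hZ, hR]
        linarith
      have h1 := kernel_ineq G T μ hμ0 hμ1 N w hw J hJ hind (κ := 1) (α := 0) (β := 1) le_rfl
        zero_le_one (by norm_num) (fun v hv => by
          rw [← hμ1]
          refine Finset.sum_le_sum fun I hI => ?_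
          split_ifs
          · exact le_rfl
          · exact hμ0 I hI) hm
      rw [← hW, hW2, ← ht] at h1
      have h2 : 2 * (r * m) + t ≤ 4 * r ^ 2 := by nlinarith [sq_nonneg (2 * r - m)]
      calc ell * (2 * (r * m) + t) ≤ ell * (4 * r ^ 2) :=
            mul_le_mul_of_nonneg_left h2 ell_pos.le
        _ = 4 * r ^ 2 * ell := by ring
        _ ≤ _ := num_small hr0.le hr2
    · have hr2 : 1 / 2 ≤ r := by
        rw [hr, le_div_iff₀ hZ, hR]
        linarith [h u hu]
      have hκ : 0 < 2 * r := by linarith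
      have h1 := kernel_ineq G T μ hμ0 hμ1 N w hw J hJ hind (κ := 1 / (2 * r)) (α := 1 / 2)
        (β := 3 * r - 1) (by norm_num) (by linarith) (by
          have : 1 / 2 * (2 * (1 / (2 * r)) - 1) + (3 * r - 1) * (1 / (2 * r)) = 1 := by
            field_simp
            ring
          rw [this]) (fun v hv => by
          have hvS : v ∈ S := by
            rw [hN, mem_nb] at hv
            exact hv.1
          rw [hfv v hv, div_le_div_iff₀ hRpos hκ, one_mul]
          have h2 := h v hvS
          have h3 : R = r * Z G S w := by rw [hr, div_mul_cancel₀ _ hZ.ne']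
          rw [h3]
          nlinarith) hm
      rw [← hW, hW2, ← ht] at h1
      have hd : 0 < 6 * r - 2 := by linarith
      have h2 : 2 * (r * m) + t ≤ 3 * r ^ 2 + r ^ 2 / (6 * r - 2) := by
        have h3 : r * m - (3 * r - 1) * m ^ 2 / 2 ≤ r ^ 2 / (6 * r - 2) := by
          rw [le_div_iff₀ hd]
          nlinarith [sq_nonneg ((3 * r - 1) * m - r)]
        nlinarith
      calc ell * (2 * (r * m) + t) ≤ ell * (3 * r ^ 2 + r ^ 2 / (6 * r - 2)) :=
            mul_le_mul_of_nonneg_left h2 ell_pos.le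
        _ = (3 * r ^ 2 + r ^ 2 / (6 * r - 2)) * ell := by ring
        _ ≤ _ := num_large hr2 hr1
  -- the energy
  have hNS : N ⊆ S := by
    rw [hN]
    exact Finset.filter_subset _ _
  have hE := E_sdiff G hNS w
  have hsum : ∑ v ∈ N, w v * wt w (nb G S v) = 2 * W - 2 * (r * m) := by
    have h1 : ∀ v ∈ N, w v * wt w (nb G S v) = 2 * w v - 2 * (w v * a v) / Z G S w := by
      intro v hv
      have h2 := hst v (hNS hv)
      change wt w (nb G S v) * Z G S w = 2 * (Z G S w - a v) at h2
      have h3 : wt w (nb G S v) = 2 * (Z G S w - a v) / Z G S w := by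
        rw [← h2, mul_div_cancel_right₀ _ hZ.ne']
      rw [h3]
      field_simp
    rw [Finset.sum_congr rfl h1, Finset.sum_sub_distrib, ← Finset.mul_sum, ← Finset.sum_div,
      ← Finset.mul_sum, hmP, hr, hW]
    unfold wt
    field_simp
  have hE2 : E G (S \ N) w = E G S w - 2 * W + 2 * (r * m) + t := by
    rw [hsum, ← ht] at hE
    linarith
  have hau : a u = Real.exp (-(2 * ell) * W) * Z G (S \ N) w := by
    rw [hW, hN]
    exact sum_mem G hu w
  have hIH : Real.exp (-(ell * E G (S \ N) w)) ≤ Z G (S \ N) w := by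
    rw [hN]
    exact IH u hu
  have h1 : Real.exp (-(ell * E G S w)) * Real.exp (-(ell * (2 * (r * m) + t))) ≤ a u := by
    rw [hau, ← Real.exp_add]
    calc Real.exp (-(ell * E G S w) + -(ell * (2 * (r * m) + t)))
        = Real.exp (-(2 * ell) * W) * Real.exp (-(ell * E G (S \ N) w)) := by
          rw [← Real.exp_add, hE2]
          congr 1
          ring
      _ ≤ _ := mul_le_mul_of_nonneg_left hIH (Real.exp_pos _).le
  have h2 : a u ≤ Real.exp (-(ell * (2 * (r * m) + t))) * Z G S w := by
    have h3 : a u = (1 - r) * Z G S w := by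
      rw [hr, sub_mul, div_mul_cancel₀ _ hZ.ne', hR]
      ring
    rw [h3]
    refine mul_le_mul_of_nonneg_right ?_ hZ.le
    rw [← Real.exp_log (show (0 : ℝ) < 1 - r by linarith)]
    exact Real.exp_le_exp.2 (by linarith)
  have h3 := h1.trans h2
  rw [mul_comm] at h3
  exact le_of_mul_le_mul_left h3 (Real.exp_pos _)

/-- A vertex with a neighbour of weight at least two may be given the weight zero. -/
theorem big {S : Finset V} {w : V → ℝ} (hw : ∀ v, 0 ≤ w v) {u v : V} (hu : u ∈ S) (hv : v ∈ S)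
    (huv : G.Adj u v) (h2 : 2 ≤ w v)
    (h : Real.exp (-(ell * E G (S.erase u) w)) ≤ Z G (S.erase u) w) :
    Real.exp (-(ell * E G S w)) ≤ Z G S w := by
  obtain ⟨w', hw'⟩ : ∃ w', w' = Function.update w u 0 := ⟨_, rfl⟩
  have hwu : w' u = 0 := by rw [hw', Function.update_self]
  have hwne : ∀ x, x ≠ u → w' x = w x := fun x hx => by rw [hw', Function.update_of_ne hx]
  have h1 : Z G (S.erase u) w ≤ Z G S w' := by
    rw [Z_congr G (w' := w') fun x hx => (hwne x (Finset.mem_erase.1 hx).1).symm]
    exact Z_erase_le G hu (Or.inl hwu)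
  have h3 : Real.exp (-(2 * ell) * w u) * Z G S w' ≤ Z G S w := by
    unfold Z
    rw [Finset.mul_sum]
    refine Finset.sum_le_sum fun I _ => ?_
    unfold z
    rw [← Real.exp_add]
    refine Real.exp_le_exp.2 ?_
    have h4 : wt w (S \ I) ≤ wt w' (S \ I) + w u := by
      unfold wt
      by_cases hI : u ∈ S \ I
      · rw [← Finset.add_sum_erase _ _ hI, ← Finset.add_sum_erase _ _ hI, hwu, zero_add,
          Finset.sum_congr rfl fun x hx => (hwne x (Finset.mem_erase.1 hx).1).symm]
        linarith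
      · rw [Finset.sum_congr rfl fun x hx => (hwne x fun h5 => hI (h5 ▸ hx)).symm]
        linarith [hw u]
    have := ell_pos
    nlinarith
  have h4 : 2 ≤ wt w (nb G S u) :=
    h2.trans (Finset.single_le_sum (f := w) (fun x _ => hw x) ((mem_nb G).2 ⟨hv, huv⟩))
  have h5 := E_erase G hu w
  calc Real.exp (-(ell * E G S w))
      ≤ Real.exp (-(2 * ell) * w u) * Real.exp (-(ell * E G (S.erase u) w)) := by
        rw [← Real.exp_add, h5]
        refine Real.exp_le_exp.2 ?_
        have h6 := mul_le_mul_of_nonneg_left h4 (hw u)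
        have := ell_pos
        nlinarith
    _ ≤ Real.exp (-(2 * ell) * w u) * Z G S w' :=
        mul_le_mul_of_nonneg_left (h.trans h1) (Real.exp_pos _).le
    _ ≤ _ := h3

/-- Dependence on one weight. -/
theorem Z_update {S : Finset V} {v : V} (hv : v ∈ S) (w : V → ℝ) (t : ℝ) :
    Z G S (Function.update w v t) =
      ∑ I ∈ (mis G S).filter (fun I => v ∈ I), z S w I +
        Real.exp (-(2 * ell) * (t - w v)) *
          (Z G S w - ∑ I ∈ (mis G S).filter (fun I => v ∈ I), z S w I) := by
  have h0 : Z G S w - ∑ I ∈ (mis G S).filter (fun I => v ∈ I), z S w I =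
      ∑ I ∈ (mis G S).filter (fun I => v ∉ I), z S w I := by
    unfold Z
    rw [← Finset.sum_filter_add_sum_filter_not (mis G S) (fun I => v ∈ I)]
    ring
  rw [h0]
  unfold Z
  rw [← Finset.sum_filter_add_sum_filter_not (mis G S) (fun I => v ∈ I), Finset.mul_sum]
  congr 1
  · refine Finset.sum_congr rfl fun I hI => ?_
    unfold z
    congr 2
    refine Finset.sum_congr rfl fun x hx => ?_
    rw [Function.update_of_ne]
    rintro rfl
    exact (Finset.mem_sdiff.1 hx).2 (Finset.mem_filter.1 hI).2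
  · refine Finset.sum_congr rfl fun I hI => ?_
    have hvI : v ∈ S \ I := Finset.mem_sdiff.2 ⟨hv, (Finset.mem_filter.1 hI).2⟩
    unfold z
    rw [← Real.exp_add]
    congr 1
    unfold wt
    rw [← Finset.add_sum_erase _ _ hvI, ← Finset.add_sum_erase _ _ hvI, Function.update_self,
      Finset.sum_congr rfl fun x hx => Function.update_of_ne (Finset.mem_erase.1 hx).1 t w]
    ring

theorem E_update {S : Finset V} {v : V} (hv : v ∈ S) (w : V → ℝ) (t : ℝ) :
    E G S (Function.update w v t) = E G S w + (t - w v) * wt w (nb G S v) := by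
  rw [E_erase G hv, E_erase G hv w, Function.update_self,
    E_congr G fun x hx => Function.update_of_ne (Finset.mem_erase.1 hx).1 t w]
  have : wt (Function.update w v t) (nb G S v) = wt w (nb G S v) := by
    refine wt_congr fun x hx => Function.update_of_ne ?_ t w
    rintro rfl
    exact G.irrefl ((mem_nb G).1 hx).2
  rw [this]
  ring

/-- The function to be minimized. -/
def F (S : Finset V) (w : V → ℝ) : ℝ := Z G S w * Real.exp (ell * E G S w)

theorem one_le_F_iff {S : Finset V} {w : V → ℝ} :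
    1 ≤ F G S w ↔ Real.exp (-(ell * E G S w)) ≤ Z G S w := by
  unfold F
  rw [Real.exp_neg, inv_le_iff_one_le_mul₀ (Real.exp_pos _)]

theorem stationary {S : Finset V} {v : V} (hv : v ∈ S) {w : V → ℝ} {lo hi : ℝ} (h1 : lo < w v)
    (h2 : w v < hi)
    (hmin : ∀ t, lo ≤ t → t ≤ hi → F G S w ≤ F G S (Function.update w v t)) :
    wt w (nb G S v) * Z G S w =
      2 * (Z G S w - ∑ I ∈ (mis G S).filter (fun I => v ∈ I), z S w I) := by
  obtain ⟨a, ha⟩ : ∃ a, a = ∑ I ∈ (mis G S).filter (fun I => v ∈ I), z S w I := ⟨_, rfl⟩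
  obtain ⟨b, hb⟩ : ∃ b, b = Z G S w - a := ⟨_, rfl⟩
  obtain ⟨n, hn⟩ : ∃ n, n = wt w (nb G S v) := ⟨_, rfl⟩
  let g : ℝ → ℝ := fun t => (a + Real.exp (-(2 * ell) * (t - w v)) * b) *
    Real.exp (ell * (E G S w + (t - w v) * n))
  have hg : ∀ t, F G S (Function.update w v t) = g t := by
    intro t
    unfold F
    rw [Z_update G hv, E_update G hv, ← ha, ← hb, ← hn]
  have hgw : g (w v) = F G S w := by
    rw [← hg, Function.update_eq_self]
  have hloc : IsLocalMin g (w v) := by
    have : Set.Icc lo hi ∈ nhds (w v) := Icc_mem_nhds h1 h2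
    filter_upwards [this] with t ht
    rw [hgw, ← hg]
    exact hmin t ht.1 ht.2
  have hder : HasDerivAt g ((Real.exp (-(2 * ell) * (w v - w v)) * (-(2 * ell) * 1) * b) *
      Real.exp (ell * (E G S w + (w v - w v) * n)) +
      (a + Real.exp (-(2 * ell) * (w v - w v)) * b) *
        (Real.exp (ell * (E G S w + (w v - w v) * n)) * (ell * (1 * n)))) (w v) := by
    have d0 : HasDerivAt (fun t : ℝ => t - w v) 1 (w v) := (hasDerivAt_id _).sub_const _
    have d1 : HasDerivAt (fun t : ℝ => Real.exp (-(2 * ell) * (t - w v)))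
        (Real.exp (-(2 * ell) * (w v - w v)) * (-(2 * ell) * 1)) (w v) :=
      (d0.const_mul _).exp
    have d2 : HasDerivAt (fun t : ℝ => Real.exp (ell * (E G S w + (t - w v) * n)))
        (Real.exp (ell * (E G S w + (w v - w v) * n)) * (ell * (1 * n))) (w v) :=
      (((d0.mul_const n).const_add _).const_mul ell).exp
    exact ((d1.mul_const b).const_add a).mul d2
  have h3 := hloc.hasDerivAt_eq_zero hder
  rw [sub_self, mul_zero, Real.exp_zero, zero_mul, add_zero] at h3
  have h4 : Real.exp (ell * E G S w) * ell * ((a + b) * n - 2 * b) = 0 := by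
    linear_combination h3
  have h5 : (a + b) * n - 2 * b = 0 := by
    rcases mul_eq_zero.1 h4 with h6 | h6
    · exact absurd h6 (mul_pos (Real.exp_pos _) ell_pos).ne'
    · exact h6
  have hab : a + b = Z G S w := by rw [hb]; ring
  rw [hab] at h5
  rw [← hn, ← ha, ← hb]
  linarith

theorem continuous_F (S : Finset V) : Continuous fun w : V → ℝ => F G S w := by
  have hwt : ∀ A : Finset V, Continuous fun w : V → ℝ => wt w A := fun A =>
    continuous_finsetSum _ fun v _ => continuous_apply v
  have hE : Continuous fun w : V → ℝ => E G S w := by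
    unfold E
    refine continuous_const.mul (continuous_finsetSum _ fun u _ =>
      continuous_finsetSum _ fun v _ => ?_)
    unfold ew
    by_cases h : G.Adj u v
    · simp only [if_pos h]
      exact (continuous_apply u).mul (continuous_apply v)
    · simp only [if_neg h]
      exact continuous_const
  unfold F Z z
  refine (continuous_finsetSum _ fun I _ => ?_).mul ?_
  · exact Real.continuous_exp.comp (continuous_const.mul (hwt _))
  · exact Real.continuous_exp.comp (continuous_const.mul hE)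

/-- **Main theorem.** -/
theorem main (S : Finset V) : ∀ w : V → ℝ, (∀ v, 0 ≤ w v) →
    Real.exp (-(ell * E G S w)) ≤ Z G S w := by
  induction S using Finset.strongInduction with
  | H S IH =>
    intro w₀ hw₀
    by_cases hSe : S = ∅
    · subst hSe
      rw [Z_empty, E_empty, mul_zero, neg_zero, Real.exp_zero]
    have hSne := Finset.nonempty_iff_ne_empty.2 hSe
    -- removal of a vertex
    have hrem : ∀ w : V → ℝ, (∀ v, 0 ≤ w v) → ∀ v ∈ S, (w v = 0 ∨ nb G S v = ∅) →
        Real.exp (-(ell * E G S w)) ≤ Z G S w := by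
      intro w hw v hv h
      have h1 := IH (S.erase v) (Finset.erase_ssubset hv) w hw
      have h2 := Z_erase_le G hv h
      have h3 : E G S w = E G (S.erase v) w := by
        rw [E_erase G hv]
        rcases h with h | h
        · rw [h, zero_mul, add_zero]
        · rw [h]
          simp [wt]
      rw [h3]
      exact h1.trans h2
    by_cases hiso : ∃ v ∈ S, nb G S v = ∅
    · obtain ⟨v, hv, h⟩ := hiso
      exact hrem w₀ hw₀ v hv (Or.inr h)
    push Not at hiso
    have hbig : ∀ w : V → ℝ, (∀ v, 0 ≤ w v) → ∀ v ∈ S, 2 ≤ w v →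
        Real.exp (-(ell * E G S w)) ≤ Z G S w := by
      intro w hw v hv h2
      obtain ⟨u, hu⟩ := hiso v hv
      rw [mem_nb] at hu
      exact big G hw hu.1 hv hu.2.symm h2 (IH (S.erase u) (Finset.erase_ssubset hu.1) w hw)
    -- the minimum on the cube
    let K : Set (V → ℝ) := Set.univ.pi fun _ => Set.Icc (0 : ℝ) 2
    have hK : IsCompact K := isCompact_univ_pi fun _ => isCompact_Icc
    have hKne : K.Nonempty := ⟨fun _ => 0, fun _ _ => ⟨le_rfl, zero_le_two⟩⟩
    obtain ⟨w, hwK, hmin⟩ := hK.exists_isMinOn hKne (continuous_F G S).continuousOn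
    have hw : ∀ v, 0 ≤ w v := fun v => (hwK v (Set.mem_univ v)).1
    have hmain : 1 ≤ F G S w := by
      rw [one_le_F_iff]
      by_cases h0 : ∃ v ∈ S, w v = 0
      · obtain ⟨v, hv, h⟩ := h0
        exact hrem w hw v hv (Or.inl h)
      by_cases h2 : ∃ v ∈ S, 2 ≤ w v
      · obtain ⟨v, hv, h⟩ := h2
        exact hbig w hw v hv h
      push Not at h0 h2
      have hwpos : ∀ v ∈ S, 0 < w v := fun v hv => lt_of_le_of_ne (hw v) (h0 v hv).symm
      refine step G hw ?_ ?_ ?_ hSne
      · intro u hu
        refine IH _ ?_ w hw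
        obtain ⟨x, hx⟩ := hiso u hu
        refine (Finset.ssubset_iff_of_subset Finset.sdiff_subset).2
          ⟨x, ((mem_nb G).1 hx).1, fun h => (Finset.mem_sdiff.1 h).2 hx⟩
      · intro v hv
        refine stationary G hv (lo := 0) (hi := 2) (hwpos v hv) (h2 v hv) fun t ht0 ht2 => ?_
        refine hmin ?_
        intro x _
        by_cases hx : x = v
        · subst hx
          rw [Function.update_self]
          exact ⟨ht0, ht2⟩
        · rw [Function.update_of_ne hx]
          exact hwK x (Set.mem_univ x)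
      · intro v hv
        obtain ⟨x, hx⟩ := hiso v hv
        exact lt_of_lt_of_le (hwpos x ((mem_nb G).1 hx).1)
          (Finset.single_le_sum (f := w) (fun y _ => hw y) hx)
    by_cases h2 : ∃ v ∈ S, 2 ≤ w₀ v
    · obtain ⟨v, hv, h⟩ := h2
      exact hbig w₀ hw₀ v hv h
    push Not at h2
    let w' : V → ℝ := fun v => min (w₀ v) 2
    have hw'K : w' ∈ K := fun v _ => ⟨le_min (hw₀ v) zero_le_two, min_le_right _ _⟩
    have hw'eq : ∀ v ∈ S, w₀ v = w' v := fun v hv => (min_eq_left (h2 v hv).le).symm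
    rw [E_congr G hw'eq, Z_congr G hw'eq, ← one_le_F_iff]
    exact hmain.trans (hmin hw'K)

/-- The number of maximal independent sets: if every vertex cover of `S` has at least `τ` elements
then `τ² ≤ e * log₂ (number of maximal independent sets)`. -/
theorem count {S : Finset V} {τ : ℝ} (hτ : 0 ≤ τ)
    (h : ∀ I ∈ mis G S, τ ≤ ((S \ I).card : ℝ)) :
    τ ^ 2 * ell ≤ (1 / 2 * ∑ u ∈ S, ((nb G S u).card : ℝ)) * Real.log ((mis G S).card : ℝ) := by
  obtain ⟨e, he⟩ : ∃ e : ℝ, e = 1 / 2 * ∑ u ∈ S, ((nb G S u).card : ℝ) := ⟨_, rfl⟩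
  have hE : ∀ c : ℝ, E G S (fun _ => c) = c ^ 2 * e := by
    intro c
    have h1 : ∀ u ∈ S, ∑ v ∈ S, ew G (fun _ => c) u v = c ^ 2 * ((nb G S u).card : ℝ) := by
      intro u _
      rw [sum_ew]
      simp only [wt, Finset.sum_const, nsmul_eq_mul]
      ring
    unfold E
    rw [Finset.sum_congr rfl h1, he, ← Finset.mul_sum]
    ring
  have he0 : 0 ≤ e := by
    rw [he]
    positivity
  have hmain : ∀ c : ℝ, 0 ≤ c → 2 * ell * c * τ - ell * c ^ 2 * e ≤
      Real.log ((mis G S).card : ℝ) := by
    intro c hc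
    have h1 := main G S (fun _ => c) fun _ => hc
    have h2 : Z G S (fun _ => c) ≤ (mis G S).card * Real.exp (-(2 * ell) * (c * τ)) := by
      unfold Z
      rw [← nsmul_eq_mul]
      refine Finset.sum_le_card_nsmul _ _ _ fun I hI => ?_
      unfold z
      refine Real.exp_le_exp.2 ?_
      have h3 : c * τ ≤ wt (fun _ => c) (S \ I) := by
        simp only [wt, Finset.sum_const, nsmul_eq_mul]
        rw [mul_comm]
        exact mul_le_mul_of_nonneg_right (h I hI) hc
      have := ell_pos
      nlinarith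
    have h3 := h1.trans h2
    have hcard : (0 : ℝ) < (mis G S).card := by
      by_contra hcon
      have h4 : ((mis G S).card : ℝ) = 0 := le_antisymm (not_lt.1 hcon) (Nat.cast_nonneg _)
      rw [h4, zero_mul] at h3
      exact absurd h3 (not_le.2 (Real.exp_pos _))
    have h4 := Real.log_le_log (Real.exp_pos _) h3
    rw [Real.log_exp, Real.log_mul hcard.ne' (Real.exp_pos _).ne', Real.log_exp, hE] at h4
    linarith
  rw [← he]
  by_cases he1 : e = 0
  · -- no edges
    have hlog : 0 ≤ Real.log ((mis G S).card : ℝ) := by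
      have := hmain 0 le_rfl
      simpa using this
    rw [he1, zero_mul]
    -- then `τ = 0`
    by_contra hcon
    have hτpos : 0 < τ := by
      rcases hτ.lt_or_eq with h5 | h5
      · exact h5
      · rw [← h5] at hcon
        simp at hcon
    have h6 := hmain ((Real.log ((mis G S).card : ℝ) + 1) / (2 * ell * τ))
      (div_nonneg (by linarith) (by have := ell_pos; positivity))
    rw [he1, mul_zero, sub_zero] at h6
    have h7 : 2 * ell * ((Real.log ((mis G S).card : ℝ) + 1) / (2 * ell * τ)) * τ =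
        Real.log ((mis G S).card : ℝ) + 1 := by
      have := ell_pos
      field_simp
    rw [h7] at h6
    linarith
  · have hepos : 0 < e := lt_of_le_of_ne he0 (Ne.symm he1)
    have h6 := hmain (τ / e) (div_nonneg hτ he0)
    have h7 : 2 * ell * (τ / e) * τ - ell * (τ / e) ^ 2 * e = τ ^ 2 * ell / e := by
      field_simp
      ring
    rw [h7, div_le_iff₀ hepos] at h6
    linarith

end Pool.Agent.MISineq
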