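import Pool.Agent.MISineq.Basic

/-!
# The two inequalities for the logarithm and the kernel inequality
-/

set_option autoImplicit false

noncomputable section

open Finset
open scoped Classical

namespace Pool.Agent.MISineq

theorem ell_lt : ell < 0.6931471808 := Real.log_two_lt_d9

theorem ell_gt : 0.6931471803 < ell := Real.log_two_gt_d9

theorem num_small {r : ℝ} (h0 : 0 ≤ r) (h1 : r ≤ 1 / 2) :
    4 * r ^ 2 * ell ≤ -Real.log (1 - r) := by
  have hl := ell_lt
  have hg := ell_gt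
  by_cases h : 1 / 4 ≤ r
  · -- `s = 1 - 2 r ≤ 1 / 2`
    have h2 : Real.log (2 * (1 - r)) ≤ 2 * (1 - r) - 1 := Real.log_le_sub_one_of_pos (by linarith)
    rw [Real.log_mul (by norm_num) (by linarith)] at h2
    have h3 : Real.log (1 - r) ≤ 1 - 2 * r - ell := by
      unfold ell
      linarith
    have h4 : (1 - 4 * r ^ 2) * ell ≥ 1 - 2 * r := by
      have h5 : (1 - 2 * r) * ((1 + 2 * r) * ell - 1) ≥ 0 := by
        apply mul_nonneg (by linarith)
        nlinarith
      nlinarith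
    nlinarith
  · have h2 : Real.log (1 - r) ≤ (1 - r) - 1 := Real.log_le_sub_one_of_pos (by linarith)
    have h3 : 4 * r ^ 2 * ell ≤ r := by
      have h4 : 4 * r * ell ≤ 1 := by nlinarith
      nlinarith
    linarith

theorem num_large {r : ℝ} (h0 : 1 / 2 ≤ r) (h1 : r < 1) :
    (3 * r ^ 2 + r ^ 2 / (6 * r - 2)) * ell ≤ -Real.log (1 - r) := by
  have hl := ell_lt
  have hg := ell_gt
  have hr : 0 < 1 - r := by linarith
  -- `s = 2 r - 1`
  obtain ⟨s, hs⟩ : ∃ s, s = 2 * r - 1 := ⟨_, rfl⟩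
  have hs0 : 0 ≤ s := by linarith
  have hs1 : s < 1 := by linarith
  have hlog : 2 * s / (2 - s) ≤ -Real.log (1 - s) := by
    have h2 := Real.le_log_one_add_of_nonneg (x := s / (1 - s)) (div_nonneg hs0 (by linarith))
    have hne : (1 - s) ≠ 0 := by linarith
    have h3 : 1 + s / (1 - s) = (1 - s)⁻¹ := by
      rw [eq_comm, inv_eq_one_div, div_eq_iff hne, add_mul, div_mul_cancel₀ _ hne]
      ring
    rw [h3, Real.log_inv] at h2
    have h4 : 2 * (s / (1 - s)) / (s / (1 - s) + 2) = 2 * s / (2 - s) := by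
      have : (1 - s) ≠ 0 := by linarith
      have h5 : (2 - s) ≠ 0 := by linarith
      have h6 : s / (1 - s) + 2 = (2 - s) / (1 - s) := by
        field_simp
        ring
      rw [h6]
      field_simp
    rw [h4] at h2
    exact h2
  have h2 : -Real.log (1 - r) = ell - Real.log (1 - s) := by
    have : 1 - s = 2 * (1 - r) := by rw [hs]; ring
    rw [this, Real.log_mul (by norm_num) hr.ne']
    unfold ell
    ring
  have h3 : 3 * r ^ 2 + r ^ 2 / (6 * r - 2) = 1 + s * (5 + 22 * s + 9 * s ^ 2) / (4 * (1 + 3 * s)) := by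
    have e1 : r = (1 + s) / 2 := by rw [hs]; ring
    have e2 : 6 * r - 2 = 1 + 3 * s := by rw [hs]; ring
    have e3 : (1 + 3 * s) ≠ 0 := by positivity
    rw [e2, e1]
    field_simp
    ring
  have h4 : s * (5 + 22 * s + 9 * s ^ 2) / (4 * (1 + 3 * s)) * ell ≤ 2 * s / (2 - s) := by
    rw [div_mul_eq_mul_div, div_le_div_iff₀ (by positivity) (by linarith)]
    have h5 : (5 + 22 * s + 9 * s ^ 2) * (2 - s) * ell ≤ 8 * (1 + 3 * s) := by
      have h6 : 0 ≤ (5 + 22 * s + 9 * s ^ 2) * (2 - s) :=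
        mul_nonneg (by positivity) (by linarith)
      have h7 : (5 + 22 * s + 9 * s ^ 2) * (2 - s) * ell ≤
          (5 + 22 * s + 9 * s ^ 2) * (2 - s) * 0.6932 :=
        mul_le_mul_of_nonneg_left (by linarith) h6
      have h8 : (5 + 22 * s + 9 * s ^ 2) * (2 - s) * 0.6932 ≤ 8 * (1 + 3 * s) := by
        nlinarith [mul_nonneg hs0 hs0, mul_nonneg hs0 (mul_nonneg hs0 hs0), sq_nonneg (s - 0.5),
          mul_nonneg hs0 (sq_nonneg (s - 0.5)), sq_nonneg (s - 0.3),
          mul_nonneg hs0 (sq_nonneg (s - 0.3))]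
      linarith
    calc s * (5 + 22 * s + 9 * s ^ 2) * ell * (2 - s)
        = s * ((5 + 22 * s + 9 * s ^ 2) * (2 - s) * ell) := by ring
      _ ≤ s * (8 * (1 + 3 * s)) := mul_le_mul_of_nonneg_left h5 hs0
      _ = 2 * s * (4 * (1 + 3 * s)) := by ring
  rw [h2, h3, add_mul, one_mul]
  linarith

variable {V : Type*} (G : SimpleGraph V)

theorem kernel_ineq {ι : Type*} (T : Finset ι) (μ : ι → ℝ) (hμ : ∀ i ∈ T, 0 ≤ μ i)
    (hμ1 : ∑ i ∈ T, μ i = 1) (N : Finset V) (w : V → ℝ) (hw : ∀ v, 0 ≤ w v)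
    (J : ι → Finset V) (hJ : ∀ i ∈ T, J i ⊆ N)
    (hind : ∀ i ∈ T, ∀ u ∈ J i, ∀ v ∈ J i, ¬ G.Adj u v) {κ α β : ℝ} (hα : 0 ≤ α) (hβ : 0 ≤ β)
    (hκ : α * (2 * κ - 1) + β * κ ≤ 1)
    (hf : ∀ v ∈ N, ∑ i ∈ T, (if v ∈ J i then μ i else 0) ≤ κ) {m : ℝ}
    (hm : m = ∑ i ∈ T, μ i * wt w (J i)) :
    α * (2 * wt w N * m - wt w N ^ 2) + β * m ^ 2 ≤ wt w N ^ 2 - 2 * E G N w := by
  let f : V → ℝ := fun v => ∑ i ∈ T, if v ∈ J i then μ i else 0
  let P : V → V → ℝ := fun v v' => ∑ i ∈ T, if v ∈ J i ∧ v' ∈ J i then μ i else 0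
  have hwt : ∀ i ∈ T, wt w (J i) = ∑ v ∈ N, if v ∈ J i then w v else 0 := by
    intro i hi
    unfold wt
    rw [← Finset.sum_filter]
    congr 1
    ext v
    rw [Finset.mem_filter]
    exact ⟨fun h => ⟨hJ i hi h, h⟩, fun h => h.2⟩
  have hm1 : m = ∑ v ∈ N, w v * f v := by
    rw [hm]
    have : ∀ i ∈ T, μ i * wt w (J i) = ∑ v ∈ N, w v * (if v ∈ J i then μ i else 0) := by
      intro i hi
      rw [hwt i hi, Finset.mul_sum]
      refine Finset.sum_congr rfl fun v _ => ?_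
      by_cases h : v ∈ J i
      · rw [if_pos h, if_pos h, mul_comm]
      · rw [if_neg h, if_neg h, mul_zero, mul_zero]
    rw [Finset.sum_congr rfl this, Finset.sum_comm]
    refine Finset.sum_congr rfl fun v _ => ?_
    rw [Finset.mul_sum]
  have hM2 : ∑ i ∈ T, μ i * wt w (J i) ^ 2 = ∑ v ∈ N, ∑ v' ∈ N, w v * w v' * P v v' := by
    have : ∀ i ∈ T, μ i * wt w (J i) ^ 2 = ∑ v ∈ N, ∑ v' ∈ N,
        w v * w v' * (if v ∈ J i ∧ v' ∈ J i then μ i else 0) := by
      intro i hi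
      rw [hwt i hi, sq, Finset.sum_mul_sum, Finset.mul_sum]
      refine Finset.sum_congr rfl fun v _ => ?_
      rw [Finset.mul_sum]
      refine Finset.sum_congr rfl fun v' _ => ?_
      by_cases h : v ∈ J i
      · by_cases h' : v' ∈ J i
        · rw [if_pos h, if_pos h', if_pos ⟨h, h'⟩]
          ring
        · have h3 : ¬ (v ∈ J i ∧ v' ∈ J i) := fun h2 => h' h2.2
          rw [if_pos h, if_neg h', if_neg h3]
          ring
      · have h3 : ¬ (v ∈ J i ∧ v' ∈ J i) := fun h2 => h h2.1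
        rw [if_neg h, if_neg h3]
        ring
    rw [Finset.sum_congr rfl this, Finset.sum_comm]
    refine Finset.sum_congr rfl fun v _ => ?_
    rw [Finset.sum_comm]
    refine Finset.sum_congr rfl fun v' _ => ?_
    rw [Finset.mul_sum]
  have hvar : m ^ 2 ≤ ∑ i ∈ T, μ i * wt w (J i) ^ 2 := by
    have h1 : 0 ≤ ∑ i ∈ T, μ i * (wt w (J i) - m) ^ 2 :=
      Finset.sum_nonneg fun i hi => mul_nonneg (hμ i hi) (sq_nonneg _)
    have h2 : ∑ i ∈ T, μ i * (wt w (J i) - m) ^ 2 =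
        ∑ i ∈ T, μ i * wt w (J i) ^ 2 - 2 * m * ∑ i ∈ T, μ i * wt w (J i) +
          m ^ 2 * ∑ i ∈ T, μ i := by
      rw [Finset.mul_sum, Finset.mul_sum, ← Finset.sum_sub_distrib, ← Finset.sum_add_distrib]
      refine Finset.sum_congr rfl fun i _ => ?_
      ring
    rw [h2, ← hm, hμ1] at h1
    nlinarith
  have hker : ∀ v ∈ N, ∀ v' ∈ N, α * (f v + f v' - 1) + β * P v v' ≤
      if G.Adj v v' then 0 else 1 := by
    intro v hv v' hv'
    by_cases h : G.Adj v v'
    · rw [if_pos h]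
      have hP : P v v' = 0 := Finset.sum_eq_zero fun i hi =>
        if_neg fun h2 => hind i hi v h2.1 v' h2.2 h
      have hff : f v + f v' ≤ 1 := by
        rw [← hμ1]
        change (∑ i ∈ T, if v ∈ J i then μ i else 0) + (∑ i ∈ T, if v' ∈ J i then μ i else 0) ≤ _
        rw [← Finset.sum_add_distrib]
        refine Finset.sum_le_sum fun i hi => ?_
        by_cases h1 : v ∈ J i
        · rw [if_pos h1, if_neg fun h2 => hind i hi v h1 v' h2 h, add_zero]
        · rw [if_neg h1, zero_add]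
          split_ifs
          · exact le_rfl
          · exact hμ i hi
      rw [hP, mul_zero, add_zero]
      exact mul_nonpos_of_nonneg_of_nonpos hα (by linarith)
    · rw [if_neg h]
      have h1 : f v ≤ κ := hf v hv
      have h2 : f v' ≤ κ := hf v' hv'
      have h3 : P v v' ≤ κ := by
        refine le_trans ?_ h1
        refine Finset.sum_le_sum fun i hi => ?_
        by_cases h4 : v ∈ J i
        · rw [if_pos h4]
          split_ifs
          · exact le_rfl
          · exact hμ i hi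
        · rw [if_neg h4, if_neg fun h5 => h4 h5.1]
      nlinarith
  have hsum : ∑ v ∈ N, ∑ v' ∈ N, w v * w v' * (α * (f v + f v' - 1) + β * P v v') ≤
      ∑ v ∈ N, ∑ v' ∈ N, w v * w v' * (if G.Adj v v' then 0 else 1) :=
    Finset.sum_le_sum fun v hv => Finset.sum_le_sum fun v' hv' =>
      mul_le_mul_of_nonneg_left (hker v hv v' hv') (mul_nonneg (hw v) (hw v'))
  have hR : ∑ v ∈ N, ∑ v' ∈ N, w v * w v' * (if G.Adj v v' then 0 else 1) =
      wt w N ^ 2 - 2 * E G N w := by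
    have h1 : wt w N ^ 2 = ∑ v ∈ N, ∑ v' ∈ N, w v * w v' := by
      unfold wt
      rw [sq, Finset.sum_mul_sum]
    have h2 : 2 * E G N w = ∑ v ∈ N, ∑ v' ∈ N, ew G w v v' := by
      unfold E
      ring
    rw [h1, h2, ← Finset.sum_sub_distrib]
    refine Finset.sum_congr rfl fun v _ => ?_
    rw [← Finset.sum_sub_distrib]
    refine Finset.sum_congr rfl fun v' _ => ?_
    unfold ew
    split_ifs <;> ring
  have hL : ∑ v ∈ N, ∑ v' ∈ N, w v * w v' * (α * (f v + f v' - 1) + β * P v v') =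
      α * (2 * wt w N * m - wt w N ^ 2) + β * ∑ i ∈ T, μ i * wt w (J i) ^ 2 := by
    have e1 : ∑ v ∈ N, ∑ v' ∈ N, w v * w v' * (α * (f v + f v' - 1) + β * P v v') =
        α * (∑ v ∈ N, ∑ v' ∈ N, (w v * f v) * w v') + α * (∑ v ∈ N, ∑ v' ∈ N, w v * (w v' * f v')) -
          α * (∑ v ∈ N, ∑ v' ∈ N, w v * w v') + β * ∑ v ∈ N, ∑ v' ∈ N, w v * w v' * P v v' := by
      simp only [Finset.mul_sum]
      rw [← Finset.sum_add_distrib, ← Finset.sum_sub_distrib, ← Finset.sum_add_distrib]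
      refine Finset.sum_congr rfl fun v _ => ?_
      rw [← Finset.sum_add_distrib, ← Finset.sum_sub_distrib, ← Finset.sum_add_distrib]
      refine Finset.sum_congr rfl fun v' _ => ?_
      ring
    rw [e1, ← hM2, ← Finset.sum_mul_sum, ← Finset.sum_mul_sum, ← Finset.sum_mul_sum, ← hm1]
    unfold wt
    ring
  rw [hR, hL] at hsum
  have := mul_le_mul_of_nonneg_left hvar hβ
  linarith

end Pool.Agent.MISineq
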